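import Pool.Agent.Q31.GLV.Stm

/-!
# Job TA of project GLV: the set of the maps `τ` with `InT` is a module over the endomorphisms of `U`
-/

set_option autoImplicit false

namespace Pool.Agent.Q57.GLV

open Module Cardinal Submodule Pool.Agent.Q31.GLV

section

variable {F V : Type} [Field F] [AddCommGroup V] [Module F V]

/-- Sums: products of the transvections. -/
lemma inT_add {H : Subgroup (V ≃ₗ[F] V)} {U : Submodule F V} {τ τ' : V →ₗ[F] U}
    (h : InT H U τ) (h' : InT H U τ') : InT H U (τ + τ') := by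
  obtain ⟨h0, t, ht, hv⟩ := h
  obtain ⟨h0', t', ht', hv'⟩ := h'
  refine ⟨fun u => by simp [h0 u, h0' u], t * t', H.mul_mem ht ht', fun v => ?_⟩
  have e1 : (t * t') v = t (t' v) := rfl
  rw [e1, hv', hv, map_add, h0, add_zero, LinearMap.add_apply, Submodule.coe_add]
  abel

/-- Composition with the elements of `GL(U)`: conjugation. -/
lemma inT_comp {H : Subgroup (V ≃ₗ[F] V)} {U : Submodule F V} (hU : NT H U) {τ : V →ₗ[F] U}
    (h : InT H U τ) (y : U ≃ₗ[F] U) : InT H U ((y : U →ₗ[F] U) ∘ₗ τ) := by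
  obtain ⟨h0, t, ht, hv⟩ := h
  obtain ⟨k, hk, hk1, hk2⟩ := hU y
  refine ⟨fun u => by simp [h0 u], k * t * k⁻¹, H.mul_mem (H.mul_mem hk ht) (H.inv_mem hk),
    fun v => ?_⟩
  set w := k⁻¹ v with hw
  have hkw : k w = v := by
    have : (k * k⁻¹) v = v := by rw [mul_inv_cancel]; rfl
    exact this
  have e1 : (k * t * k⁻¹) v = k (t w) := rfl
  -- `v - w ∈ U`
  have e2 : τ v = τ w := by
    have h3 : v - w ∈ U := by rw [← hkw]; exact hk2 w
    have h4 := h0 ⟨v - w, h3⟩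
    have h5 : τ (v - w) = 0 := h4
    rw [map_sub, sub_eq_zero] at h5
    exact h5
  rw [e1, hv w, map_add, hkw, hk1 (τ w), LinearMap.comp_apply, e2]
  rfl

end

/-- Job TA. -/
theorem t_TA (hS : S_SUM) : S_TA := by
  intro F V _ _ _ hV H U hU hN
  refine ⟨fun τ τ' h h' => inT_add h h', fun τ e h => ?_⟩
  obtain ⟨a, b, c, d, hd⟩ := hS F U (by rw [hU.1]; exact hV) e
  have h1 := inT_add (inT_add (inT_add (inT_comp hN h a) (inT_comp hN h b)) (inT_comp hN h c))
    (inT_comp hN h d)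
  have h2 : e ∘ₗ τ = (a : U →ₗ[F] U) ∘ₗ τ + (b : U →ₗ[F] U) ∘ₗ τ + (c : U →ₗ[F] U) ∘ₗ τ +
      (d : U →ₗ[F] U) ∘ₗ τ := by
    ext v
    simp [hd]
  rw [h2]
  exact h1

end Pool.Agent.Q57.GLV
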